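import Pool.Agent.W244.SqFree2

set_option autoImplicit false

namespace Pool.Agent.W244.SqFree

/-- `g` with the entry `x` inserted at slot `p` -/
def ins (t p : ℕ) (x : ℚ) (k : ℕ) : ℚ := if k < p then g t k else if k = p then x else g t (k - 1)

theorem ins_lt {t p : ℕ} {x : ℚ} {k : ℕ} (h : k < p) : ins t p x k = g t k := if_pos h

theorem ins_eq {t p : ℕ} {x : ℚ} {k : ℕ} (h : k = p) : ins t p x k = x := by
  rw [ins, if_neg (by omega), if_pos h]

theorem ins_gt {t p : ℕ} {x : ℚ} {k j : ℕ} (h : p < k) (hj : k = j + 1) :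
    ins t p x k = g t j := by
  rw [ins, if_neg (by omega), if_neg (by omega)]
  congr 1
  omega

theorem sq_two {V : ℕ → ℚ} {i : ℕ} {a b c d : ℚ} (h0 : V i = a) (h1 : V (i + 1) = b)
    (h2 : V (i + 2) = c) (h3 : V (i + 3) = d) (hab : a ≠ b) (hcd : c ≠ d)
    (h : a < b ↔ c < d) : Sq V i 2 := by
  have h' : b < a ↔ d < c := by
    constructor
    · intro hba
      rcases lt_or_gt_of_ne hcd with hc | hc
      · exact absurd (h.2 hc) (by exact not_lt.2 hba.le)
      · exact hc
    · intro hdc
      rcases lt_or_gt_of_ne hab with hc | hc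
      · exact absurd (h.1 hc) (by exact not_lt.2 hdc.le)
      · exact hc
  intro p hp q hq
  interval_cases p <;> interval_cases q
  · simp
  · show V i < V (i + 1) ↔ V (i + 2) < V (i + 3)
    rw [h0, h1, h2, h3]; exact h
  · show V (i + 1) < V i ↔ V (i + 3) < V (i + 2)
    rw [h0, h1, h2, h3]; exact h'
  · simp

theorem sq_of_chain8 {V : ℕ → ℚ} {i : ℕ} (r : Fin 8 → Fin 8) (hr : Function.Surjective r)
    (hA : ∀ s : Fin 7, V (i + (r s.castSucc).val) < V (i + (r s.succ).val))
    (hB : ∀ s : Fin 7, V (i + 8 + (r s.castSucc).val) < V (i + 8 + (r s.succ).val)) :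
    Sq V i 8 := by
  have mA : StrictMono (fun s : Fin 8 => V (i + (r s).val)) := Fin.strictMono_iff_lt_succ.2 hA
  have mB : StrictMono (fun s : Fin 8 => V (i + 8 + (r s).val)) := Fin.strictMono_iff_lt_succ.2 hB
  intro a ha b hb
  obtain ⟨s, hs⟩ := hr ⟨a, ha⟩
  obtain ⟨s', hs'⟩ := hr ⟨b, hb⟩
  have e1 : (r s).val = a := by rw [hs]
  have e2 : (r s').val = b := by rw [hs']
  have k1 := mA.lt_iff_lt (a := s) (b := s')
  have k2 := mB.lt_iff_lt (a := s) (b := s')
  simp only [e1, e2] at k1 k2
  rw [k1, k2]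

/-- all comparisons among the first entries -/
theorem chain_left (t : ℕ) (ht : 1 ≤ t) :
    (g t 0 < g t 3 ∧ g t 3 < g t 4 ∧ g t 4 < g t 6 ∧ g t 6 < g t 5 ∧ g t 5 < g t 2 ∧
      g t 2 < g t 1) ∧
    (g t 7 < g t 11 ∧ g t 11 < g t 12 ∧ g t 12 < g t 14 ∧ g t 14 < g t 13 ∧ g t 13 < g t 10 ∧
      g t 10 < g t 8 ∧ g t 8 < g t 9) := by
  have t0 : (1 : ℚ) ≤ t := by exact_mod_cast ht
  have e0 := g_zero t
  have e1 := g_one t 1 (by norm_num) (by norm_num) (by norm_num)
  have e2 : g t 2 = 3 := by
    rw [g_even t 2 (by norm_num) (by norm_num) (by omega)]; exact mu_zero t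
  have e3 := g_three t 3 (by norm_num) (by omega) (by omega)
  have e4 := mu_one_bd t (4 / 2 - 1) (by norm_num)
  rw [← g_even t 4 (by norm_num) (by norm_num) (by omega)] at e4
  have e5 := g_5 t
  have e6 := f_peak_bd 2 (by norm_num)
  have e6' : g t 6 = f 2 := by
    rw [g_even t 6 (by norm_num) (by norm_num) (by omega),
      mu_even t (6 / 2 - 1) (by norm_num) (by norm_num) (by omega)]
  have e7 := g_three t 7 (by norm_num) (by omega) (by omega)
  have e8 := mu_three_bd t (8 / 2 - 1) (by norm_num)
  rw [← g_even t 8 (by norm_num) (by norm_num) (by omega)] at e8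
  have e9 := g_one t 9 (by norm_num) (by norm_num) (by norm_num)
  have e10 := f_odd_bd 3 (by norm_num)
  have e10' : g t 10 = f 3 := by
    rw [g_even t 10 (by norm_num) (by norm_num) (by omega),
      mu_even t (10 / 2 - 1) (by norm_num) (by norm_num) (by omega)]
  have e11 := g_three t 11 (by norm_num) (by omega) (by omega)
  have e12 := mu_one_bd t (12 / 2 - 1) (by norm_num)
  rw [← g_even t 12 (by norm_num) (by norm_num) (by omega)] at e12
  have e13 := g_13 t
  have e14 := f_val_bd 4 (by norm_num)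
  have e14' : g t 14 = f 4 := by
    rw [g_even t 14 (by norm_num) (by norm_num) (by omega),
      mu_even t (14 / 2 - 1) (by norm_num) (by norm_num) (by omega)]
  rw [← e6'] at e6
  rw [← e10'] at e10
  rw [← e14'] at e14
  push_cast at e1 e3 e7 e9 e11
  refine ⟨⟨?_, ?_, ?_, ?_, ?_, ?_⟩, ⟨?_, ?_, ?_, ?_, ?_, ?_, ?_⟩⟩ <;> linarith

/-- all comparisons among the last entries -/
theorem chain_right (t : ℕ) (ht : 1 ≤ t) :
    (g t (16 * t + 19) < g t (16 * t + 18) ∧ g t (16 * t + 18) < g t (16 * t + 15) ∧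
      g t (16 * t + 15) < g t (16 * t + 14) ∧ g t (16 * t + 14) < g t (16 * t + 16) ∧
      g t (16 * t + 16) < g t (16 * t + 17) ∧ g t (16 * t + 17) < g t (16 * t + 20)) ∧
    (g t (16 * t + 11) < g t (16 * t + 12) ∧ g t (16 * t + 12) < g t (16 * t + 10) ∧
      g t (16 * t + 10) < g t (16 * t + 7) ∧ g t (16 * t + 7) < g t (16 * t + 6) ∧
      g t (16 * t + 6) < g t (16 * t + 8) ∧ g t (16 * t + 8) < g t (16 * t + 9) ∧
      g t (16 * t + 9) < g t (16 * t + 13)) := by
  have t0 : (1 : ℚ) ≤ t := by exact_mod_cast ht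
  have e20 := g_last t
  have e19 := g_three t (16 * t + 19) (by omega) (by omega) (by omega)
  have e18 : g t (16 * t + 18) = -3 := by
    rw [g_even t (16 * t + 18) (by omega) (by omega) (by omega),
      show (16 * t + 18) / 2 - 1 = 8 * t + 8 by omega]
    exact mu_last t
  have e17 := g_one t (16 * t + 17) (by omega) (by omega) (by omega)
  have e16 := mu_three_bd t ((16 * t + 16) / 2 - 1) (by omega)
  rw [← g_even t (16 * t + 16) (by omega) (by omega) (by omega)] at e16
  have e15 := g_15 t
  have e14 := f_val_bd (4 * t + 4) (by omega)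
  have e14' : g t (16 * t + 14) = f (4 * t + 4) := by
    rw [g_even t (16 * t + 14) (by omega) (by omega) (by omega),
      mu_even t ((16 * t + 14) / 2 - 1) (by omega) (by omega) (by omega)]
    congr 1; omega
  have e13 := g_one t (16 * t + 13) (by omega) (by omega) (by omega)
  have e12 := mu_one_bd t ((16 * t + 12) / 2 - 1) (by omega)
  rw [← g_even t (16 * t + 12) (by omega) (by omega) (by omega)] at e12
  have e11 := g_three t (16 * t + 11) (by omega) (by omega) (by omega)
  have e10 := f_odd_bd (4 * t + 3) (by omega)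
  have e10' : g t (16 * t + 10) = f (4 * t + 3) := by
    rw [g_even t (16 * t + 10) (by omega) (by omega) (by omega),
      mu_even t ((16 * t + 10) / 2 - 1) (by omega) (by omega) (by omega)]
    congr 1; omega
  have e9 := g_one t (16 * t + 9) (by omega) (by omega) (by omega)
  have e8 := mu_three_bd t ((16 * t + 8) / 2 - 1) (by omega)
  rw [← g_even t (16 * t + 8) (by omega) (by omega) (by omega)] at e8
  have e7 := g_7 t
  have e6 := f_peak_bd (4 * t + 2) (by omega)
  have e6' : g t (16 * t + 6) = f (4 * t + 2) := by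
    rw [g_even t (16 * t + 6) (by omega) (by omega) (by omega),
      mu_even t ((16 * t + 6) / 2 - 1) (by omega) (by omega) (by omega)]
    congr 1; omega
  rw [← e6'] at e6
  rw [← e10'] at e10
  rw [← e14'] at e14
  push_cast at e9 e11 e13 e17 e19
  refine ⟨⟨?_, ?_, ?_, ?_, ?_, ?_⟩, ⟨?_, ?_, ?_, ?_, ?_, ?_, ?_⟩⟩ <;> linarith

/-- inserting anything anywhere creates a square -/
theorem ins_square (t : ℕ) (ht : 1 ≤ t) (p : ℕ) (hp : p ≤ 16 * t + 21) (x : ℚ)
    (hx : ∀ k, k < 16 * t + 21 → x ≠ g t k) :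
    ∃ i l : ℕ, 2 ≤ l ∧ i + 2 * l ≤ 16 * t + 21 + 1 ∧ Sq (ins t p x) i l := by
  have gne : ∀ i j, i < 16 * t + 21 → j < 16 * t + 21 → i ≠ j → g t i ≠ g t j :=
    fun i j hi hj hij h => hij (g_inj t i j ht hi hj h)
  obtain ⟨⟨a1, a2, a3, a4, a5, a6⟩, ⟨b1, b2, b3, b4, b5, b6, b7⟩⟩ := chain_left t ht
  obtain ⟨⟨c1, c2, c3, c4, c5, c6⟩, ⟨d1, d2, d3, d4, d5, d6, d7⟩⟩ := chain_right t ht
  rcases (by omega : p = 0 ∨ p = 1 ∨ p = 2 ∨ (3 ≤ p ∧ p ≤ 16 * t + 18) ∨ p = 16 * t + 19 ∨
    p = 16 * t + 20 ∨ p = 16 * t + 21) with h | h | h | ⟨hp1, hp2⟩ | h | h | h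
  · -- slot 0
    subst h
    rcases lt_or_gt_of_ne (hx 0 (by omega)) with h0 | h0
    · refine ⟨0, 4, by norm_num, by omega, ?_⟩
      have v0 : ins t 0 x (0 + 0) = x := ins_eq (by omega)
      have v1 : ins t 0 x (0 + 1) = g t 0 := ins_gt (by omega) (by omega)
      have v2 : ins t 0 x (0 + 2) = g t 1 := ins_gt (by omega) (by omega)
      have v3 : ins t 0 x (0 + 3) = g t 2 := ins_gt (by omega) (by omega)
      have v4 : ins t 0 x (0 + 4 + 0) = g t 3 := ins_gt (by omega) (by omega)
      have v5 : ins t 0 x (0 + 4 + 1) = g t 4 := ins_gt (by omega) (by omega)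
      have v6 : ins t 0 x (0 + 4 + 2) = g t 5 := ins_gt (by omega) (by omega)
      have v7 : ins t 0 x (0 + 4 + 3) = g t 6 := ins_gt (by omega) (by omega)
      intro a ha b hb
      interval_cases a <;> interval_cases b <;>
        simp only [v0, v1, v2, v3, v4, v5, v6, v7] <;>
        first
          | exact iff_of_true (by linarith) (by linarith)
          | exact iff_of_false (by linarith) (by linarith)
    · refine ⟨0, 2, by norm_num, by omega, ?_⟩
      refine sq_two (a := x) (b := g t 0) (c := g t 1) (d := g t 2) (ins_eq (by omega))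
        (ins_gt (by omega) (by omega)) (ins_gt (by omega) (by omega))
        (ins_gt (by omega) (by omega)) (hx 0 (by omega)) (gne 1 2 (by omega) (by omega)
        (by norm_num)) ?_
      exact iff_of_false (by linarith) (by linarith)
  · -- slot 1
    subst h
    rcases lt_or_gt_of_ne (hx 0 (by omega)) with h0 | h0
    · refine ⟨0, 2, by norm_num, by omega, ?_⟩
      refine sq_two (a := g t 0) (b := x) (c := g t 1) (d := g t 2) (ins_lt (by omega))
        (ins_eq (by omega)) (ins_gt (by omega) (by omega))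
        (ins_gt (by omega) (by omega)) (hx 0 (by omega)).symm (gne 1 2 (by omega) (by omega)
        (by norm_num)) ?_
      exact iff_of_false (by linarith) (by linarith)
    rcases lt_or_gt_of_ne (hx 1 (by omega)) with h1 | h1
    · rcases lt_or_gt_of_ne (hx 2 (by omega)) with h2 | h2
      · refine ⟨0, 4, by norm_num, by omega, ?_⟩
        have v0 : ins t 1 x (0 + 0) = g t 0 := ins_lt (by omega)
        have v1 : ins t 1 x (0 + 1) = x := ins_eq (by omega)
        have v2 : ins t 1 x (0 + 2) = g t 1 := ins_gt (by omega) (by omega)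
        have v3 : ins t 1 x (0 + 3) = g t 2 := ins_gt (by omega) (by omega)
        have v4 : ins t 1 x (0 + 4 + 0) = g t 3 := ins_gt (by omega) (by omega)
        have v5 : ins t 1 x (0 + 4 + 1) = g t 4 := ins_gt (by omega) (by omega)
        have v6 : ins t 1 x (0 + 4 + 2) = g t 5 := ins_gt (by omega) (by omega)
        have v7 : ins t 1 x (0 + 4 + 3) = g t 6 := ins_gt (by omega) (by omega)
        intro a ha b hb
        interval_cases a <;> interval_cases b <;>
          simp only [v0, v1, v2, v3, v4, v5, v6, v7] <;>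
          first
            | exact iff_of_true (by linarith) (by linarith)
            | exact iff_of_false (by linarith) (by linarith)
      · refine ⟨0, 8, by norm_num, by omega, ?_⟩
        have v0 : ins t 1 x (0 + 0) = g t 0 := ins_lt (by omega)
        have v1 : ins t 1 x (0 + 1) = x := ins_eq (by omega)
        have v2 : ins t 1 x (0 + 2) = g t 1 := ins_gt (by omega) (by omega)
        have v3 : ins t 1 x (0 + 3) = g t 2 := ins_gt (by omega) (by omega)
        have v4 : ins t 1 x (0 + 4) = g t 3 := ins_gt (by omega) (by omega)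
        have v5 : ins t 1 x (0 + 5) = g t 4 := ins_gt (by omega) (by omega)
        have v6 : ins t 1 x (0 + 6) = g t 5 := ins_gt (by omega) (by omega)
        have v7 : ins t 1 x (0 + 7) = g t 6 := ins_gt (by omega) (by omega)
        have w0 : ins t 1 x (0 + 8 + 0) = g t 7 := ins_gt (by omega) (by omega)
        have w1 : ins t 1 x (0 + 8 + 1) = g t 8 := ins_gt (by omega) (by omega)
        have w2 : ins t 1 x (0 + 8 + 2) = g t 9 := ins_gt (by omega) (by omega)
        have w3 : ins t 1 x (0 + 8 + 3) = g t 10 := ins_gt (by omega) (by omega)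
        have w4 : ins t 1 x (0 + 8 + 4) = g t 11 := ins_gt (by omega) (by omega)
        have w5 : ins t 1 x (0 + 8 + 5) = g t 12 := ins_gt (by omega) (by omega)
        have w6 : ins t 1 x (0 + 8 + 6) = g t 13 := ins_gt (by omega) (by omega)
        have w7 : ins t 1 x (0 + 8 + 7) = g t 14 := ins_gt (by omega) (by omega)
        clear c1 c2 c3 c4 c5 c6 d1 d2 d3 d4 d5 d6 d7
        refine sq_of_chain8 ![0, 4, 5, 7, 6, 3, 1, 2] (by decide) ?_ ?_ <;> intro s <;> fin_cases s
        · show ins _ _ _ (_ + 0) < ins _ _ _ (_ + 4); rw [v0, v4]; linarith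
        · show ins _ _ _ (_ + 4) < ins _ _ _ (_ + 5); rw [v4, v5]; linarith
        · show ins _ _ _ (_ + 5) < ins _ _ _ (_ + 7); rw [v5, v7]; linarith
        · show ins _ _ _ (_ + 7) < ins _ _ _ (_ + 6); rw [v7, v6]; linarith
        · show ins _ _ _ (_ + 6) < ins _ _ _ (_ + 3); rw [v6, v3]; linarith
        · show ins _ _ _ (_ + 3) < ins _ _ _ (_ + 1); rw [v3, v1]; linarith
        · show ins _ _ _ (_ + 1) < ins _ _ _ (_ + 2); rw [v1, v2]; linarith
        · show ins _ _ _ (_ + 8 + 0) < ins _ _ _ (_ + 8 + 4); rw [w0, w4]; linarith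
        · show ins _ _ _ (_ + 8 + 4) < ins _ _ _ (_ + 8 + 5); rw [w4, w5]; linarith
        · show ins _ _ _ (_ + 8 + 5) < ins _ _ _ (_ + 8 + 7); rw [w5, w7]; linarith
        · show ins _ _ _ (_ + 8 + 7) < ins _ _ _ (_ + 8 + 6); rw [w7, w6]; linarith
        · show ins _ _ _ (_ + 8 + 6) < ins _ _ _ (_ + 8 + 3); rw [w6, w3]; linarith
        · show ins _ _ _ (_ + 8 + 3) < ins _ _ _ (_ + 8 + 1); rw [w3, w1]; linarith
        · show ins _ _ _ (_ + 8 + 1) < ins _ _ _ (_ + 8 + 2); rw [w1, w2]; linarith
    · refine ⟨1, 2, by norm_num, by omega, ?_⟩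
      refine sq_two (a := x) (b := g t 1) (c := g t 2) (d := g t 3) (ins_eq (by omega))
        (ins_gt (by omega) (by omega)) (ins_gt (by omega) (by omega))
        (ins_gt (by omega) (by omega)) (hx 1 (by omega)) (gne 2 3 (by omega) (by omega)
        (by norm_num)) ?_
      exact iff_of_false (by linarith) (by linarith)
  · -- slot 2
    subst h
    rcases lt_or_gt_of_ne (hx 1 (by omega)) with h1 | h1
    · refine ⟨1, 2, by norm_num, by omega, ?_⟩
      refine sq_two (a := g t 1) (b := x) (c := g t 2) (d := g t 3) (ins_lt (by omega))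
        (ins_eq (by omega)) (ins_gt (by omega) (by omega))
        (ins_gt (by omega) (by omega)) (hx 1 (by omega)).symm (gne 2 3 (by omega) (by omega)
        (by norm_num)) ?_
      exact iff_of_false (by linarith) (by linarith)
    · refine ⟨0, 8, by norm_num, by omega, ?_⟩
      have v0 : ins t 2 x (0 + 0) = g t 0 := ins_lt (by omega)
      have v1 : ins t 2 x (0 + 1) = g t 1 := ins_lt (by omega)
      have v2 : ins t 2 x (0 + 2) = x := ins_eq (by omega)
      have v3 : ins t 2 x (0 + 3) = g t 2 := ins_gt (by omega) (by omega)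
      have v4 : ins t 2 x (0 + 4) = g t 3 := ins_gt (by omega) (by omega)
      have v5 : ins t 2 x (0 + 5) = g t 4 := ins_gt (by omega) (by omega)
      have v6 : ins t 2 x (0 + 6) = g t 5 := ins_gt (by omega) (by omega)
      have v7 : ins t 2 x (0 + 7) = g t 6 := ins_gt (by omega) (by omega)
      have w0 : ins t 2 x (0 + 8 + 0) = g t 7 := ins_gt (by omega) (by omega)
      have w1 : ins t 2 x (0 + 8 + 1) = g t 8 := ins_gt (by omega) (by omega)
      have w2 : ins t 2 x (0 + 8 + 2) = g t 9 := ins_gt (by omega) (by omega)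
      have w3 : ins t 2 x (0 + 8 + 3) = g t 10 := ins_gt (by omega) (by omega)
      have w4 : ins t 2 x (0 + 8 + 4) = g t 11 := ins_gt (by omega) (by omega)
      have w5 : ins t 2 x (0 + 8 + 5) = g t 12 := ins_gt (by omega) (by omega)
      have w6 : ins t 2 x (0 + 8 + 6) = g t 13 := ins_gt (by omega) (by omega)
      have w7 : ins t 2 x (0 + 8 + 7) = g t 14 := ins_gt (by omega) (by omega)
      clear c1 c2 c3 c4 c5 c6 d1 d2 d3 d4 d5 d6 d7
      refine sq_of_chain8 ![0, 4, 5, 7, 6, 3, 1, 2] (by decide) ?_ ?_ <;> intro s <;> fin_cases s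
      · show ins _ _ _ (_ + 0) < ins _ _ _ (_ + 4); rw [v0, v4]; linarith
      · show ins _ _ _ (_ + 4) < ins _ _ _ (_ + 5); rw [v4, v5]; linarith
      · show ins _ _ _ (_ + 5) < ins _ _ _ (_ + 7); rw [v5, v7]; linarith
      · show ins _ _ _ (_ + 7) < ins _ _ _ (_ + 6); rw [v7, v6]; linarith
      · show ins _ _ _ (_ + 6) < ins _ _ _ (_ + 3); rw [v6, v3]; linarith
      · show ins _ _ _ (_ + 3) < ins _ _ _ (_ + 1); rw [v3, v1]; linarith
      · show ins _ _ _ (_ + 1) < ins _ _ _ (_ + 2); rw [v1, v2]; linarith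
      · show ins _ _ _ (_ + 8 + 0) < ins _ _ _ (_ + 8 + 4); rw [w0, w4]; linarith
      · show ins _ _ _ (_ + 8 + 4) < ins _ _ _ (_ + 8 + 5); rw [w4, w5]; linarith
      · show ins _ _ _ (_ + 8 + 5) < ins _ _ _ (_ + 8 + 7); rw [w5, w7]; linarith
      · show ins _ _ _ (_ + 8 + 7) < ins _ _ _ (_ + 8 + 6); rw [w7, w6]; linarith
      · show ins _ _ _ (_ + 8 + 6) < ins _ _ _ (_ + 8 + 3); rw [w6, w3]; linarith
      · show ins _ _ _ (_ + 8 + 3) < ins _ _ _ (_ + 8 + 1); rw [w3, w1]; linarith
      · show ins _ _ _ (_ + 8 + 1) < ins _ _ _ (_ + 8 + 2); rw [w1, w2]; linarith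
  · -- interior slots
    obtain ⟨q, rfl⟩ : ∃ q, p = q + 3 := ⟨p - 3, by omega⟩
    by_contra hcon
    push Not at hcon
    have s0 : ¬ (g t q < g t (q + 1) ↔ g t (q + 2) < x) := fun hh =>
      hcon q 2 le_rfl (by omega) (sq_two (ins_lt (by omega)) (ins_lt (by omega))
        (ins_lt (by omega)) (ins_eq (by omega)) (gne _ _ (by omega) (by omega) (by omega))
        (hx _ (by omega)).symm hh)
    have s1 : ¬ (g t (q + 1) < g t (q + 2) ↔ x < g t (q + 3)) := fun hh =>
      hcon (q + 1) 2 le_rfl (by omega) (sq_two (ins_lt (by omega)) (ins_lt (by omega))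
        (ins_eq (by omega)) (ins_gt (by omega) (by omega))
        (gne _ _ (by omega) (by omega) (by omega)) (hx _ (by omega)) hh)
    have s2 : ¬ (g t (q + 2) < x ↔ g t (q + 3) < g t (q + 4)) := fun hh =>
      hcon (q + 2) 2 le_rfl (by omega) (sq_two (ins_lt (by omega)) (ins_eq (by omega))
        (ins_gt (by omega) (by omega)) (ins_gt (by omega) (by omega))
        (hx _ (by omega)).symm (gne _ _ (by omega) (by omega) (by omega)) hh)
    have s3 : ¬ (x < g t (q + 3) ↔ g t (q + 4) < g t (q + 5)) := fun hh =>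
      hcon (q + 3) 2 le_rfl (by omega) (sq_two (ins_eq (by omega)) (ins_gt (by omega) (by omega))
        (ins_gt (by omega) (by omega)) (ins_gt (by omega) (by omega))
        (hx _ (by omega)) (gne _ _ (by omega) (by omega) (by omega)) hh)
    have A := g_shape t q ht (by omega)
    have B := g_shape t (q + 1) ht (by omega)
    have C := g_shape t (q + 3) ht (by omega)
    have D := g_shape t (q + 4) ht (by omega)
    rw [show q + 1 + 1 = q + 2 from rfl] at B
    rw [show q + 3 + 1 = q + 4 from rfl] at C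
    rw [show q + 4 + 1 = q + 5 from rfl] at D
    rw [A] at s0
    rw [B] at s1
    rw [C] at s2
    rw [D] at s3
    by_cases hX : g t (q + 2) < x <;> by_cases hY : x < g t (q + 3) <;>
      simp only [hX, hY, iff_true, iff_false, true_iff, false_iff] at s0 s1 s2 s3 <;> omega
  · -- slot n - 2
    subst h
    rcases lt_or_gt_of_ne (hx (16 * t + 19) (by omega)) with h1 | h1
    · refine ⟨16 * t + 6, 8, by norm_num, by omega, ?_⟩
      have v0 : ins t (16 * t + 19) x (16 * t + 6 + 0) = g t (16 * t + 6) := ins_lt (by omega)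
      have v1 : ins t (16 * t + 19) x (16 * t + 6 + 1) = g t (16 * t + 7) := ins_lt (by omega)
      have v2 : ins t (16 * t + 19) x (16 * t + 6 + 2) = g t (16 * t + 8) := ins_lt (by omega)
      have v3 : ins t (16 * t + 19) x (16 * t + 6 + 3) = g t (16 * t + 9) := ins_lt (by omega)
      have v4 : ins t (16 * t + 19) x (16 * t + 6 + 4) = g t (16 * t + 10) := ins_lt (by omega)
      have v5 : ins t (16 * t + 19) x (16 * t + 6 + 5) = g t (16 * t + 11) := ins_lt (by omega)
      have v6 : ins t (16 * t + 19) x (16 * t + 6 + 6) = g t (16 * t + 12) := ins_lt (by omega)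
      have v7 : ins t (16 * t + 19) x (16 * t + 6 + 7) = g t (16 * t + 13) := ins_lt (by omega)
      have w0 : ins t (16 * t + 19) x (16 * t + 6 + 8 + 0) = g t (16 * t + 14) :=
        ins_lt (by omega)
      have w1 : ins t (16 * t + 19) x (16 * t + 6 + 8 + 1) = g t (16 * t + 15) :=
        ins_lt (by omega)
      have w2 : ins t (16 * t + 19) x (16 * t + 6 + 8 + 2) = g t (16 * t + 16) :=
        ins_lt (by omega)
      have w3 : ins t (16 * t + 19) x (16 * t + 6 + 8 + 3) = g t (16 * t + 17) :=
        ins_lt (by omega)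
      have w4 : ins t (16 * t + 19) x (16 * t + 6 + 8 + 4) = g t (16 * t + 18) :=
        ins_lt (by omega)
      have w5 : ins t (16 * t + 19) x (16 * t + 6 + 8 + 5) = x := ins_eq (by omega)
      have w6 : ins t (16 * t + 19) x (16 * t + 6 + 8 + 6) = g t (16 * t + 19) :=
        ins_gt (by omega) (by omega)
      have w7 : ins t (16 * t + 19) x (16 * t + 6 + 8 + 7) = g t (16 * t + 20) :=
        ins_gt (by omega) (by omega)
      clear a1 a2 a3 a4 a5 a6 b1 b2 b3 b4 b5 b6 b7
      refine sq_of_chain8 ![5, 6, 4, 1, 0, 2, 3, 7] (by decide) ?_ ?_ <;> intro s <;> fin_cases s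
      · show ins _ _ _ (_ + 5) < ins _ _ _ (_ + 6); rw [v5, v6]; linarith
      · show ins _ _ _ (_ + 6) < ins _ _ _ (_ + 4); rw [v6, v4]; linarith
      · show ins _ _ _ (_ + 4) < ins _ _ _ (_ + 1); rw [v4, v1]; linarith
      · show ins _ _ _ (_ + 1) < ins _ _ _ (_ + 0); rw [v1, v0]; linarith
      · show ins _ _ _ (_ + 0) < ins _ _ _ (_ + 2); rw [v0, v2]; linarith
      · show ins _ _ _ (_ + 2) < ins _ _ _ (_ + 3); rw [v2, v3]; linarith
      · show ins _ _ _ (_ + 3) < ins _ _ _ (_ + 7); rw [v3, v7]; linarith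
      · show ins _ _ _ (_ + 8 + 5) < ins _ _ _ (_ + 8 + 6); rw [w5, w6]; linarith
      · show ins _ _ _ (_ + 8 + 6) < ins _ _ _ (_ + 8 + 4); rw [w6, w4]; linarith
      · show ins _ _ _ (_ + 8 + 4) < ins _ _ _ (_ + 8 + 1); rw [w4, w1]; linarith
      · show ins _ _ _ (_ + 8 + 1) < ins _ _ _ (_ + 8 + 0); rw [w1, w0]; linarith
      · show ins _ _ _ (_ + 8 + 0) < ins _ _ _ (_ + 8 + 2); rw [w0, w2]; linarith
      · show ins _ _ _ (_ + 8 + 2) < ins _ _ _ (_ + 8 + 3); rw [w2, w3]; linarith
      · show ins _ _ _ (_ + 8 + 3) < ins _ _ _ (_ + 8 + 7); rw [w3, w7]; linarith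
    · refine ⟨16 * t + 17, 2, by norm_num, by omega, ?_⟩
      refine sq_two (a := g t (16 * t + 17)) (b := g t (16 * t + 18)) (c := x)
        (d := g t (16 * t + 19)) (ins_lt (by omega)) (ins_lt (by omega)) (ins_eq (by omega))
        (ins_gt (by omega) (by omega)) (gne _ _ (by omega) (by omega) (by omega))
        (hx _ (by omega)) ?_
      exact iff_of_false (by linarith) (by linarith)
  · -- slot n - 1
    subst h
    rcases lt_or_gt_of_ne (hx (16 * t + 20) (by omega)) with h0 | h0
    · rcases lt_or_gt_of_ne (hx (16 * t + 19) (by omega)) with h1 | h1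
      · refine ⟨16 * t + 17, 2, by norm_num, by omega, ?_⟩
        refine sq_two (a := g t (16 * t + 17)) (b := g t (16 * t + 18)) (c := g t (16 * t + 19))
          (d := x) (ins_lt (by omega)) (ins_lt (by omega)) (ins_lt (by omega))
          (ins_eq (by omega)) (gne _ _ (by omega) (by omega) (by omega))
          (hx _ (by omega)).symm ?_
        exact iff_of_false (by linarith) (by linarith)
      · rcases lt_or_gt_of_ne (hx (16 * t + 18) (by omega)) with h2 | h2
        · refine ⟨16 * t + 6, 8, by norm_num, by omega, ?_⟩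
          have v0 : ins t (16 * t + 20) x (16 * t + 6 + 0) = g t (16 * t + 6) := ins_lt (by omega)
          have v1 : ins t (16 * t + 20) x (16 * t + 6 + 1) = g t (16 * t + 7) := ins_lt (by omega)
          have v2 : ins t (16 * t + 20) x (16 * t + 6 + 2) = g t (16 * t + 8) := ins_lt (by omega)
          have v3 : ins t (16 * t + 20) x (16 * t + 6 + 3) = g t (16 * t + 9) := ins_lt (by omega)
          have v4 : ins t (16 * t + 20) x (16 * t + 6 + 4) = g t (16 * t + 10) :=
            ins_lt (by omega)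
          have v5 : ins t (16 * t + 20) x (16 * t + 6 + 5) = g t (16 * t + 11) :=
            ins_lt (by omega)
          have v6 : ins t (16 * t + 20) x (16 * t + 6 + 6) = g t (16 * t + 12) :=
            ins_lt (by omega)
          have v7 : ins t (16 * t + 20) x (16 * t + 6 + 7) = g t (16 * t + 13) :=
            ins_lt (by omega)
          have w0 : ins t (16 * t + 20) x (16 * t + 6 + 8 + 0) = g t (16 * t + 14) :=
            ins_lt (by omega)
          have w1 : ins t (16 * t + 20) x (16 * t + 6 + 8 + 1) = g t (16 * t + 15) :=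
            ins_lt (by omega)
          have w2 : ins t (16 * t + 20) x (16 * t + 6 + 8 + 2) = g t (16 * t + 16) :=
            ins_lt (by omega)
          have w3 : ins t (16 * t + 20) x (16 * t + 6 + 8 + 3) = g t (16 * t + 17) :=
            ins_lt (by omega)
          have w4 : ins t (16 * t + 20) x (16 * t + 6 + 8 + 4) = g t (16 * t + 18) :=
            ins_lt (by omega)
          have w5 : ins t (16 * t + 20) x (16 * t + 6 + 8 + 5) = g t (16 * t + 19) :=
            ins_lt (by omega)
          have w6 : ins t (16 * t + 20) x (16 * t + 6 + 8 + 6) = x := ins_eq (by omega)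
          have w7 : ins t (16 * t + 20) x (16 * t + 6 + 8 + 7) = g t (16 * t + 20) :=
            ins_gt (by omega) (by omega)
          clear a1 a2 a3 a4 a5 a6 b1 b2 b3 b4 b5 b6 b7
          refine sq_of_chain8 ![5, 6, 4, 1, 0, 2, 3, 7] (by decide) ?_ ?_ <;> intro s <;> fin_cases s
          · show ins _ _ _ (_ + 5) < ins _ _ _ (_ + 6); rw [v5, v6]; linarith
          · show ins _ _ _ (_ + 6) < ins _ _ _ (_ + 4); rw [v6, v4]; linarith
          · show ins _ _ _ (_ + 4) < ins _ _ _ (_ + 1); rw [v4, v1]; linarith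
          · show ins _ _ _ (_ + 1) < ins _ _ _ (_ + 0); rw [v1, v0]; linarith
          · show ins _ _ _ (_ + 0) < ins _ _ _ (_ + 2); rw [v0, v2]; linarith
          · show ins _ _ _ (_ + 2) < ins _ _ _ (_ + 3); rw [v2, v3]; linarith
          · show ins _ _ _ (_ + 3) < ins _ _ _ (_ + 7); rw [v3, v7]; linarith
          · show ins _ _ _ (_ + 8 + 5) < ins _ _ _ (_ + 8 + 6); rw [w5, w6]; linarith
          · show ins _ _ _ (_ + 8 + 6) < ins _ _ _ (_ + 8 + 4); rw [w6, w4]; linarith
          · show ins _ _ _ (_ + 8 + 4) < ins _ _ _ (_ + 8 + 1); rw [w4, w1]; linarith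
          · show ins _ _ _ (_ + 8 + 1) < ins _ _ _ (_ + 8 + 0); rw [w1, w0]; linarith
          · show ins _ _ _ (_ + 8 + 0) < ins _ _ _ (_ + 8 + 2); rw [w0, w2]; linarith
          · show ins _ _ _ (_ + 8 + 2) < ins _ _ _ (_ + 8 + 3); rw [w2, w3]; linarith
          · show ins _ _ _ (_ + 8 + 3) < ins _ _ _ (_ + 8 + 7); rw [w3, w7]; linarith
        · refine ⟨16 * t + 14, 4, by norm_num, by omega, ?_⟩
          have w0 : ins t (16 * t + 20) x (16 * t + 14 + 0) = g t (16 * t + 14) :=
            ins_lt (by omega)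
          have w1 : ins t (16 * t + 20) x (16 * t + 14 + 1) = g t (16 * t + 15) :=
            ins_lt (by omega)
          have w2 : ins t (16 * t + 20) x (16 * t + 14 + 2) = g t (16 * t + 16) :=
            ins_lt (by omega)
          have w3 : ins t (16 * t + 20) x (16 * t + 14 + 3) = g t (16 * t + 17) :=
            ins_lt (by omega)
          have w4 : ins t (16 * t + 20) x (16 * t + 14 + 4 + 0) = g t (16 * t + 18) :=
            ins_lt (by omega)
          have w5 : ins t (16 * t + 20) x (16 * t + 14 + 4 + 1) = g t (16 * t + 19) :=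
            ins_lt (by omega)
          have w6 : ins t (16 * t + 20) x (16 * t + 14 + 4 + 2) = x := ins_eq (by omega)
          have w7 : ins t (16 * t + 20) x (16 * t + 14 + 4 + 3) = g t (16 * t + 20) :=
            ins_gt (by omega) (by omega)
          clear a1 a2 a3 a4 a5 a6 b1 b2 b3 b4 b5 b6 b7
          intro a ha b hb
          interval_cases a <;> interval_cases b <;>
            simp only [w0, w1, w2, w3, w4, w5, w6, w7] <;>
            first
              | exact iff_of_true (by linarith) (by linarith)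
              | exact iff_of_false (by linarith) (by linarith)
    · refine ⟨16 * t + 18, 2, by norm_num, by omega, ?_⟩
      refine sq_two (a := g t (16 * t + 18)) (b := g t (16 * t + 19)) (c := x)
        (d := g t (16 * t + 20)) (ins_lt (by omega)) (ins_lt (by omega)) (ins_eq (by omega))
        (ins_gt (by omega) (by omega)) (gne _ _ (by omega) (by omega) (by omega))
        (hx _ (by omega)) ?_
      exact iff_of_false (by linarith) (by linarith)
  · -- slot n
    subst h
    rcases lt_or_gt_of_ne (hx (16 * t + 20) (by omega)) with h0 | h0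
    · refine ⟨16 * t + 18, 2, by norm_num, by omega, ?_⟩
      refine sq_two (a := g t (16 * t + 18)) (b := g t (16 * t + 19)) (c := g t (16 * t + 20))
        (d := x) (ins_lt (by omega)) (ins_lt (by omega)) (ins_lt (by omega))
        (ins_eq (by omega)) (gne _ _ (by omega) (by omega) (by omega))
        (hx _ (by omega)).symm ?_
      exact iff_of_false (by linarith) (by linarith)
    · refine ⟨16 * t + 14, 4, by norm_num, by omega, ?_⟩
      have w0 : ins t (16 * t + 21) x (16 * t + 14 + 0) = g t (16 * t + 14) :=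
        ins_lt (by omega)
      have w1 : ins t (16 * t + 21) x (16 * t + 14 + 1) = g t (16 * t + 15) :=
        ins_lt (by omega)
      have w2 : ins t (16 * t + 21) x (16 * t + 14 + 2) = g t (16 * t + 16) :=
        ins_lt (by omega)
      have w3 : ins t (16 * t + 21) x (16 * t + 14 + 3) = g t (16 * t + 17) :=
        ins_lt (by omega)
      have w4 : ins t (16 * t + 21) x (16 * t + 14 + 4 + 0) = g t (16 * t + 18) :=
        ins_lt (by omega)
      have w5 : ins t (16 * t + 21) x (16 * t + 14 + 4 + 1) = g t (16 * t + 19) :=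
        ins_lt (by omega)
      have w6 : ins t (16 * t + 21) x (16 * t + 14 + 4 + 2) = g t (16 * t + 20) :=
        ins_lt (by omega)
      have w7 : ins t (16 * t + 21) x (16 * t + 14 + 4 + 3) = x := ins_eq (by omega)
      clear a1 a2 a3 a4 a5 a6 b1 b2 b3 b4 b5 b6 b7
      intro a ha b hb
      interval_cases a <;> interval_cases b <;>
        simp only [w0, w1, w2, w3, w4, w5, w6, w7] <;>
        first
          | exact iff_of_true (by linarith) (by linarith)
          | exact iff_of_false (by linarith) (by linarith)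

end Pool.Agent.W244.SqFree
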