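import Mathlib

/-!
Pairwise reversing families of permutations (helper file for S10359).

The kernel `K σ τ = det (1 + P_σᵀ P_τ)`, written as a sum over the subsets `A` with `σ A = τ A`, is
positive semidefinite, equals `2 ^ n` on the diagonal and vanishes when `σ⁻¹ τ` has a `2`-cycle.
-/

set_option autoImplicit false

namespace Pool.Agent.W244.RevPerm

open Finset

variable {n : ℕ}

/-- inversion sign of an ordered pair -/
def t (σ : Equiv.Perm (Fin n)) (a b : Fin n) : ℤ := if a < b ∧ σ b < σ a then -1 else 1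

/-- inversion sign of an unordered pair -/
def u (σ : Equiv.Perm (Fin n)) (a b : Fin n) : ℤ := t σ a b * t σ b a

/-- sign of the restriction of `σ` to the set `A` -/
def s (σ : Equiv.Perm (Fin n)) (A : Finset (Fin n)) : ℤ := ∏ a ∈ A, ∏ b ∈ A, t σ a b

/-- order sign -/
def sg (x y : Fin n) : ℤ := if x < y then 1 else -1

theorem t_self (σ : Equiv.Perm (Fin n)) (a : Fin n) : t σ a a = 1 := by
  unfold t; rw [if_neg]; intro h; exact lt_irrefl _ h.1

theorem u_eq (σ : Equiv.Perm (Fin n)) (a b : Fin n) (h : a ≠ b) :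
    u σ a b = sg (σ a) (σ b) * sg a b := by
  have h' : σ a ≠ σ b := fun e => h (σ.injective e)
  unfold u t sg
  rcases lt_or_gt_of_ne h with h1 | h1 <;> rcases lt_or_gt_of_ne h' with h2 | h2 <;>
    simp [h1, h2, not_lt.2 h1.le, not_lt.2 h2.le]

theorem s_insert (σ : Equiv.Perm (Fin n)) (A : Finset (Fin n)) (i : Fin n) (hi : i ∉ A) :
    s σ (insert i A) = s σ A * ∏ a ∈ A, u σ a i := by
  unfold s u
  rw [prod_insert hi, prod_insert hi, t_self, one_mul]
  have : ∀ a ∈ A, ∏ b ∈ insert i A, t σ a b = t σ a i * ∏ b ∈ A, t σ a b :=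
    fun a _ => prod_insert hi
  rw [prod_congr rfl this, prod_mul_distrib, prod_mul_distrib]
  ring

theorem s_sq (σ : Equiv.Perm (Fin n)) (A : Finset (Fin n)) : s σ A * s σ A = 1 := by
  unfold s
  rw [← prod_mul_distrib]
  apply prod_eq_one
  intro a _
  rw [← prod_mul_distrib]
  apply prod_eq_one
  intro b _
  unfold t
  split_ifs <;> norm_num

theorem sg_sq (x y : Fin n) : sg x y * sg x y = 1 := by
  unfold sg; split_ifs <;> norm_num

theorem toggle (σ τ : Equiv.Perm (Fin n)) (i j : Fin n) (hij : i ≠ j) (h1 : σ i = τ j)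
    (h2 : σ j = τ i) (B : Finset (Fin n)) (hi : i ∉ B) (hj : j ∉ B)
    (hB : B.image σ = B.image τ) :
    s σ (insert i (insert j B)) * s τ (insert i (insert j B)) = -(s σ B * s τ B) := by
  have hi' : i ∉ insert j B := by
    rw [mem_insert, not_or]; exact ⟨hij, hi⟩
  rw [s_insert σ _ i hi', s_insert τ _ i hi', s_insert σ _ j hj, s_insert τ _ j hj,
    prod_insert hj, prod_insert hj]
  have e1 : u σ j i * u τ j i = -1 := by
    rw [u_eq σ j i hij.symm, u_eq τ j i hij.symm, ← h1, ← h2]
    have h' : σ i ≠ σ j := fun e => hij (σ.injective e)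
    have a1 := sg_sq j i
    have a2 : sg (σ j) (σ i) * sg (σ i) (σ j) = -1 := by
      unfold sg
      rcases lt_or_gt_of_ne h' with h3 | h3 <;> simp [h3, not_lt.2 h3.le]
    calc _ = (sg (σ j) (σ i) * sg (σ i) (σ j)) * (sg j i * sg j i) := by ring
      _ = -1 := by rw [a1, a2]; norm_num
  have e2 : (∏ a ∈ B, u σ a j) * (∏ a ∈ B, u σ a i) * ((∏ a ∈ B, u τ a j) * (∏ a ∈ B, u τ a i))
      = 1 := by
    rw [← prod_mul_distrib, ← prod_mul_distrib, ← prod_mul_distrib]
    have e3 : ∀ a ∈ B, u σ a j * u σ a i * (u τ a j * u τ a i) =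
        (sg (σ a) (σ i) * sg (σ a) (σ j)) * (sg (τ a) (σ i) * sg (τ a) (σ j)) := by
      intro a ha
      have n1 : a ≠ i := fun e => hi (e ▸ ha)
      have n2 : a ≠ j := fun e => hj (e ▸ ha)
      rw [u_eq σ a j n2, u_eq σ a i n1, u_eq τ a j n2, u_eq τ a i n1, ← h1, ← h2]
      have a1 := sg_sq a i
      have a2 := sg_sq a j
      calc _ = (sg (σ a) (σ i) * sg (σ a) (σ j)) * (sg (τ a) (σ i) * sg (τ a) (σ j)) *
            (sg a i * sg a i) * (sg a j * sg a j) := by ring
        _ = _ := by rw [a1, a2]; ring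
    rw [prod_congr rfl e3, prod_mul_distrib]
    have e4 : ∏ a ∈ B, (sg (σ a) (σ i) * sg (σ a) (σ j)) =
        ∏ x ∈ B.image σ, (sg x (σ i) * sg x (σ j)) :=
      (prod_image (f := fun x => sg x (σ i) * sg x (σ j)) (fun _ _ _ _ e => σ.injective e)).symm
    have e5 : ∏ a ∈ B, (sg (τ a) (σ i) * sg (τ a) (σ j)) =
        ∏ x ∈ B.image τ, (sg x (σ i) * sg x (σ j)) :=
      (prod_image (f := fun x => sg x (σ i) * sg x (σ j)) (fun _ _ _ _ e => τ.injective e)).symm
    rw [e4, e5, ← hB, ← prod_mul_distrib]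
    apply prod_eq_one
    intro x _
    have a1 := sg_sq x (σ i)
    have a2 := sg_sq x (σ j)
    calc _ = (sg x (σ i) * sg x (σ i)) * (sg x (σ j) * sg x (σ j)) := by ring
      _ = 1 := by rw [a1, a2]; norm_num
  calc _ = (s σ B * s τ B) * (u σ j i * u τ j i) *
        ((∏ a ∈ B, u σ a j) * (∏ a ∈ B, u σ a i) * ((∏ a ∈ B, u τ a j) * (∏ a ∈ B, u τ a i))) := by
        ring
    _ = _ := by rw [e1, e2]; ring

/-- the kernel -/
def K (σ τ : Equiv.Perm (Fin n)) : ℤ :=
  ∑ A : Finset (Fin n), if A.image σ = A.image τ then s σ A * s τ A else 0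

theorem K_self (σ : Equiv.Perm (Fin n)) : K σ σ = 2 ^ n := by
  unfold K
  simp [s_sq]

theorem both (σ τ : Equiv.Perm (Fin n)) (i j : Fin n) (h1 : σ i = τ j)
    (A : Finset (Fin n)) (hA : A.image σ = A.image τ) (hj : j ∈ A) : i ∈ A := by
  have : τ j ∈ A.image τ := mem_image_of_mem _ hj
  rw [← hA, ← h1, mem_image] at this
  obtain ⟨a, ha, e⟩ := this
  rw [← σ.injective e]; exact ha

theorem K_rev (σ τ : Equiv.Perm (Fin n)) (i j : Fin n) (hij : i ≠ j) (h1 : σ i = τ j)
    (h2 : σ j = τ i) : K σ τ = 0 := by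
  unfold K
  rw [← sum_filter]
  refine sum_involution
    (fun A _ => if i ∈ A then (A.erase i).erase j else insert i (insert j A)) ?_ ?_ ?_ ?_
  · intro A hA
    rw [mem_filter] at hA
    have hA := hA.2
    have b1 := both σ τ i j h1 A hA
    have b2 := both σ τ j i h2 A hA
    by_cases hi : i ∈ A
    · rw [if_pos hi]
      have hj := b2 hi
      set B := (A.erase i).erase j with hBdef
      have hAB : A = insert i (insert j B) := by
        rw [hBdef, insert_erase (mem_erase.2 ⟨hij.symm, hj⟩), insert_erase hi]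
      have hiB : i ∉ B := by rw [hBdef]; simp
      have hjB : j ∉ B := by rw [hBdef]; simp
      have hB : B.image σ = B.image τ := by
        rw [hBdef, image_erase σ.injective, image_erase σ.injective, image_erase τ.injective,
          image_erase τ.injective, hA, h1, h2, erase_right_comm]
      have := toggle σ τ i j hij h1 h2 B hiB hjB hB
      rw [← hAB] at this
      rw [this]; ring
    · rw [if_neg hi]
      have hj : j ∉ A := fun h => hi (b1 h)
      rw [toggle σ τ i j hij h1 h2 A hi hj hA]; ring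
  · intro A hA _
    rw [mem_filter] at hA
    by_cases hi : i ∈ A
    · rw [if_pos hi]
      intro e
      rw [← e] at hi
      simp at hi
    · rw [if_neg hi]
      intro e
      rw [← e] at hi
      simp at hi
  · intro A hA
    rw [mem_filter] at hA ⊢
    refine ⟨mem_univ _, ?_⟩
    have hA := hA.2
    by_cases hi : i ∈ A
    · rw [if_pos hi]
      rw [image_erase σ.injective, image_erase σ.injective, image_erase τ.injective,
          image_erase τ.injective, hA, h1, h2, erase_right_comm]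
    · rw [if_neg hi]
      rw [image_insert, image_insert, image_insert, image_insert, hA, h1, h2, insert_comm]
  · intro A hA
    rw [mem_filter] at hA
    have hA := hA.2
    have b1 := both σ τ i j h1 A hA
    have b2 := both σ τ j i h2 A hA
    by_cases hi : i ∈ A
    · have hj := b2 hi
      simp only [hi, if_true]
      have : i ∉ (A.erase i).erase j := by simp
      rw [if_neg this, insert_erase (mem_erase.2 ⟨hij.symm, hj⟩), insert_erase hi]
    · have hj : j ∉ A := fun h => hi (b1 h)
      simp only [hi, if_false]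
      rw [if_pos (mem_insert_self _ _), erase_insert (by
        rw [mem_insert, not_or]; exact ⟨hij, hi⟩), erase_insert hj]

theorem card_le (S : Finset (Equiv.Perm (Fin n)))
    (hS : ∀ σ ∈ S, ∀ τ ∈ S, σ ≠ τ → ∃ i j : Fin n, i ≠ j ∧ σ i = τ j ∧ σ j = τ i) :
    S.card ≤ 2 ^ n := by
  classical
  -- total sum of the kernel
  have h1 : ∑ σ ∈ S, ∑ τ ∈ S, K σ τ = S.card * 2 ^ n := by
    have : ∀ σ ∈ S, ∑ τ ∈ S, K σ τ = 2 ^ n := by
      intro σ hσ
      rw [sum_eq_single σ, K_self]
      · intro τ hτ hne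
        obtain ⟨i, j, hij, e1, e2⟩ := hS σ hσ τ hτ hne.symm
        exact K_rev σ τ i j hij e1 e2
      · intro h; exact absurd hσ h
    rw [sum_congr rfl this, sum_const, nsmul_eq_mul]
  -- the kernel is a sum of squares
  have h2 : ∑ σ ∈ S, ∑ τ ∈ S, K σ τ = ∑ A : Finset (Fin n), ∑ B : Finset (Fin n),
      (∑ σ ∈ S, if A.image σ = B then s σ A else 0) ^ 2 := by
    have e1 : ∀ σ ∈ S, ∀ τ ∈ S, K σ τ = ∑ A : Finset (Fin n), ∑ B : Finset (Fin n),
        (if A.image σ = B then s σ A else 0) * (if A.image τ = B then s τ A else 0) := by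
      intro σ _ τ _
      unfold K
      refine sum_congr rfl fun A _ => ?_
      rw [sum_eq_single (A.image σ)]
      · rw [if_pos rfl]
        by_cases h : A.image σ = A.image τ
        · rw [if_pos h, if_pos h.symm]
        · rw [if_neg h, if_neg (fun e => h e.symm), mul_zero]
      · intro B _ hne
        rw [if_neg (fun e => hne e.symm), zero_mul]
      · intro h; exact absurd (mem_univ _) h
    rw [sum_congr rfl fun σ hσ => sum_congr rfl fun τ hτ => e1 σ hσ τ hτ]
    have e2 : ∀ A B : Finset (Fin n), (∑ σ ∈ S, if A.image σ = B then s σ A else 0) ^ 2 =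
        ∑ σ ∈ S, ∑ τ ∈ S, (if A.image σ = B then s σ A else 0) *
          (if A.image τ = B then s τ A else 0) := by
      intro A B
      rw [sq, sum_mul_sum]
    simp_rw [e2]
    rw [sum_congr rfl fun σ _ => sum_comm]
    rw [sum_comm]
    refine sum_congr rfl fun A _ => ?_
    rw [sum_congr rfl fun σ _ => sum_comm]
    rw [sum_comm]
  have h3 : ((S.card : ℤ)) ^ 2 ≤ ∑ A : Finset (Fin n), ∑ B : Finset (Fin n),
      (∑ σ ∈ S, if A.image σ = B then s σ A else 0) ^ 2 := by
    have e1 : ((S.card : ℤ)) ^ 2 = (∑ σ ∈ S, if (∅ : Finset (Fin n)).image σ = ∅ then s σ ∅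
        else 0) ^ 2 := by
      simp [s]
    rw [e1]
    refine le_trans ?_ (single_le_sum (f := fun A : Finset (Fin n) => ∑ B : Finset (Fin n),
      (∑ σ ∈ S, if A.image σ = B then s σ A else 0) ^ 2)
      (fun A _ => sum_nonneg fun B _ => sq_nonneg _) (mem_univ ∅))
    exact single_le_sum (f := fun B : Finset (Fin n) =>
      (∑ σ ∈ S, if (∅ : Finset (Fin n)).image σ = B then s σ ∅ else 0) ^ 2)
      (fun B _ => sq_nonneg _) (mem_univ ∅)
  rw [← h2, h1] at h3
  rcases Nat.eq_zero_or_pos S.card with h0 | h0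
  · rw [h0]; positivity
  · have h0' : (0 : ℤ) < S.card := by exact_mod_cast h0
    have : (S.card : ℤ) ≤ 2 ^ n := by nlinarith
    exact_mod_cast this

end Pool.Agent.W244.RevPerm
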