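import Mathlib

/-!
An explicit infinite family of extremal square-free permutations (helper file for S09613).
-/

set_option autoImplicit false

namespace Pool.Agent.W244.SqFree

/-- `h` has a square of half-length `l` starting at index `i`. -/
def Sq (h : ℕ → ℚ) (i l : ℕ) : Prop :=
  ∀ a < l, ∀ b < l, (h (i + a) < h (i + b) ↔ h (i + l + a) < h (i + l + b))

/-- the up-up-down-down shape forces the half-length of a square to be a multiple of `4` -/
theorem shape_four {h : ℕ → ℚ} {i l : ℕ} (c : ℕ) (hl : 2 ≤ l)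
    (hs : ∀ k, i ≤ k → k + 1 < i + 2 * l →
      (h k < h (k + 1) ↔ (k + c) % 4 = 0 ∨ (k + c) % 4 = 1))
    (hsq : Sq h i l) : l % 4 = 0 := by
  have h0 := hsq 0 (by omega) 1 (by omega)
  simp only [Nat.add_zero] at h0
  rw [hs i le_rfl (by omega), hs (i + l) (by omega) (by omega)] at h0
  rcases Nat.lt_or_ge l 3 with h3 | h3
  · omega
  · have h1 := hsq 1 (by omega) 2 (by omega)
    have e1 : i + 2 = (i + 1) + 1 := by omega
    have e2 : i + l + 2 = (i + l + 1) + 1 := by omega
    rw [e1, e2, hs (i + 1) (by omega) (by omega), hs (i + l + 1) (by omega) (by omega)] at h1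
    omega

/-- passing to every second entry -/
theorem sub_sq {h h' : ℕ → ℚ} {i m : ℕ} (c j0 : ℕ)
    (hj : 2 * j0 + c = i ∨ 2 * j0 + c = i + 1)
    (hh : ∀ j j', j0 ≤ j → j < j0 + 2 * m → j0 ≤ j' → j' < j0 + 2 * m →
      (h' j < h' j' ↔ h (2 * j + c) < h (2 * j' + c)))
    (hsq : Sq h i (2 * m)) : Sq h' j0 m := by
  intro a ha b hb
  rw [hh (j0 + a) (j0 + b) (by omega) (by omega) (by omega) (by omega),
    hh (j0 + m + a) (j0 + m + b) (by omega) (by omega) (by omega) (by omega)]
  have key := hsq (2 * j0 + c - i + 2 * a) (by omega) (2 * j0 + c - i + 2 * b) (by omega)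
  have e1 : i + (2 * j0 + c - i + 2 * a) = 2 * (j0 + a) + c := by omega
  have e2 : i + (2 * j0 + c - i + 2 * b) = 2 * (j0 + b) + c := by omega
  have e3 : i + 2 * m + (2 * j0 + c - i + 2 * a) = 2 * (j0 + m + a) + c := by omega
  have e4 : i + 2 * m + (2 * j0 + c - i + 2 * b) = 2 * (j0 + m + b) + c := by omega
  rw [e1, e2, e3, e4] at key
  exact key

/-! ### the base sequence -/

/-- a square-free infinite sequence -/
def f (i : ℕ) : ℚ :=
  if i % 2 = 1 then f (i / 2) / 2
  else if i % 4 = 0 then -1 / 2 - 1 / (4 * ((i : ℚ) + 1))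
  else 3 / 4 - 1 / (8 * ((i : ℚ) + 1))
termination_by i
decreasing_by omega

theorem f_odd (i : ℕ) (h : i % 2 = 1) : f i = f (i / 2) / 2 := by
  rw [f, if_pos h]

theorem f_val (i : ℕ) (h : i % 4 = 0) : f i = -1 / 2 - 1 / (4 * ((i : ℚ) + 1)) := by
  rw [f, if_neg (by omega), if_pos h]

theorem f_peak (i : ℕ) (h : i % 4 = 2) : f i = 3 / 4 - 1 / (8 * ((i : ℚ) + 1)) := by
  rw [f, if_neg (by omega), if_neg (by omega)]

theorem inv_bd (i : ℕ) : 0 < 1 / ((i : ℚ) + 1) ∧ 1 / ((i : ℚ) + 1) ≤ 1 := by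
  have : (0 : ℚ) ≤ i := Nat.cast_nonneg i
  constructor
  · positivity
  · rw [div_le_one (by positivity)]; linarith

theorem f_val_bd (i : ℕ) (h : i % 4 = 0) : -3 / 4 ≤ f i ∧ f i < -1 / 2 := by
  rw [f_val i h]
  have := inv_bd i
  have e : 1 / (4 * ((i : ℚ) + 1)) = (1 / ((i : ℚ) + 1)) / 4 := by
    rw [div_div, mul_comm]
  rw [e]; constructor <;> linarith

theorem f_peak_bd (i : ℕ) (h : i % 4 = 2) : 5 / 8 ≤ f i ∧ f i < 3 / 4 := by
  rw [f_peak i h]
  have := inv_bd i
  have e : 1 / (8 * ((i : ℚ) + 1)) = (1 / ((i : ℚ) + 1)) / 8 := by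
    rw [div_div, mul_comm]
  rw [e]; constructor <;> linarith

theorem f_bd (i : ℕ) : -3 / 4 ≤ f i ∧ f i < 3 / 4 := by
  induction i using Nat.strong_induction_on with
  | _ i ih =>
    rcases (by omega : i % 2 = 1 ∨ i % 4 = 0 ∨ i % 4 = 2) with h | h | h
    · rw [f_odd i h]
      have := ih (i / 2) (by omega)
      constructor <;> linarith
    · have := f_val_bd i h; constructor <;> linarith
    · have := f_peak_bd i h; constructor <;> linarith

theorem f_odd_bd (i : ℕ) (h : i % 2 = 1) : -3 / 8 ≤ f i ∧ f i < 3 / 8 := by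
  rw [f_odd i h]; have := f_bd (i / 2); constructor <;> linarith

theorem f_shape (k : ℕ) : f k < f (k + 1) ↔ (k + 0) % 4 = 0 ∨ (k + 0) % 4 = 1 := by
  rcases (by omega : k % 4 = 0 ∨ k % 4 = 1 ∨ k % 4 = 2 ∨ k % 4 = 3) with h | h | h | h
  · have h1 := f_val_bd k h
    have h2 := f_odd_bd (k + 1) (by omega)
    exact iff_of_true (by linarith) (by omega)
  · have h1 := f_odd_bd k (by omega)
    have h2 := f_peak_bd (k + 1) (by omega)
    exact iff_of_true (by linarith) (by omega)
  · have h1 := f_peak_bd k h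
    have h2 := f_odd_bd (k + 1) (by omega)
    exact iff_of_false (by linarith) (by omega)
  · have h1 := f_odd_bd k (by omega)
    have h2 := f_val_bd (k + 1) (by omega)
    exact iff_of_false (by linarith) (by omega)

theorem f_sqfree : ∀ l : ℕ, 2 ≤ l → ∀ i, ¬ Sq f i l := by
  intro l
  induction l using Nat.strong_induction_on with
  | _ l ih =>
    intro hl i hsq
    have h4 := shape_four 0 hl (fun k _ _ => f_shape k) hsq
    obtain ⟨m, hm⟩ : ∃ m, l = 2 * m := ⟨l / 2, by omega⟩
    subst hm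
    refine ih m (by omega) (by omega) (i / 2) ?_
    refine sub_sq 1 (i / 2) (by omega) ?_ hsq
    intro j j' _ _ _ _
    rw [f_odd (2 * j + 1) (by omega), f_odd (2 * j' + 1) (by omega)]
    have e1 : (2 * j + 1) / 2 = j := by omega
    have e2 : (2 * j' + 1) / 2 = j' := by omega
    rw [e1, e2]
    constructor <;> intro h <;> linarith

theorem f_inj : ∀ i j : ℕ, f i = f j → i = j := by
  intro i
  induction i using Nat.strong_induction_on with
  | _ i ih =>
    intro j h
    rcases (by omega : i % 2 = 1 ∨ i % 4 = 0 ∨ i % 4 = 2) with hi | hi | hi <;>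
    rcases (by omega : j % 2 = 1 ∨ j % 4 = 0 ∨ j % 4 = 2) with hj | hj | hj
    · rw [f_odd i hi, f_odd j hj] at h
      have := ih (i / 2) (by omega) (j / 2) (by linarith)
      omega
    · exfalso; have := f_odd_bd i hi; have := f_val_bd j hj; linarith
    · exfalso; have := f_odd_bd i hi; have := f_peak_bd j hj; linarith
    · exfalso; have := f_odd_bd j hj; have := f_val_bd i hi; linarith
    · rw [f_val i hi, f_val j hj] at h
      have h1 : 1 / (4 * ((i : ℚ) + 1)) = 1 / (4 * ((j : ℚ) + 1)) := by linarith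
      have hi0 : (0 : ℚ) ≤ i := Nat.cast_nonneg i
      have hj0 : (0 : ℚ) ≤ j := Nat.cast_nonneg j
      rw [div_eq_div_iff (by positivity) (by positivity)] at h1
      have : (i : ℚ) = j := by linarith
      exact_mod_cast this
    · exfalso; have := f_peak_bd j hj; have := f_val_bd i hi; linarith
    · exfalso; have := f_odd_bd j hj; have := f_peak_bd i hi; linarith
    · exfalso; have := f_peak_bd i hi; have := f_val_bd j hj; linarith
    · rw [f_peak i hi, f_peak j hj] at h
      have h1 : 1 / (8 * ((i : ℚ) + 1)) = 1 / (8 * ((j : ℚ) + 1)) := by linarith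
      have hi0 : (0 : ℚ) ≤ i := Nat.cast_nonneg i
      have hj0 : (0 : ℚ) ≤ j := Nat.cast_nonneg j
      rw [div_eq_div_iff (by positivity) (by positivity)] at h1
      have : (i : ℚ) = j := by linarith
      exact_mod_cast this

/-! ### the middle level -/

/-- the middle sequence, indices `0, …, 8 t + 8` -/
def mu (t j : ℕ) : ℚ :=
  if j = 0 then 3 else if j = 8 * t + 8 then -3
  else if j % 4 = 1 then -2 + 1 / (2 * ((j : ℚ) + 1))
  else if j % 4 = 3 then 1 + 1 / (2 * ((j : ℚ) + 1))
  else f (j / 2 + 1)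

theorem mu_zero (t : ℕ) : mu t 0 = 3 := by rw [mu, if_pos rfl]

theorem mu_last (t : ℕ) : mu t (8 * t + 8) = -3 := by
  rw [mu, if_neg (by omega), if_pos rfl]

theorem mu_one (t j : ℕ) (h : j % 4 = 1) : mu t j = -2 + 1 / (2 * ((j : ℚ) + 1)) := by
  rw [mu, if_neg (by omega), if_neg (by omega), if_pos h]

theorem mu_three (t j : ℕ) (h : j % 4 = 3) : mu t j = 1 + 1 / (2 * ((j : ℚ) + 1)) := by
  rw [mu, if_neg (by omega), if_neg (by omega), if_neg (by omega), if_pos h]

theorem mu_even (t j : ℕ) (h : j % 2 = 0) (h0 : j ≠ 0) (h1 : j ≠ 8 * t + 8) :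
    mu t j = f (j / 2 + 1) := by
  rw [mu, if_neg h0, if_neg h1, if_neg (by omega), if_neg (by omega)]

theorem mu_one_bd (t j : ℕ) (h : j % 4 = 1) : -2 < mu t j ∧ mu t j ≤ -3 / 2 := by
  rw [mu_one t j h]
  have := inv_bd j
  have e : 1 / (2 * ((j : ℚ) + 1)) = (1 / ((j : ℚ) + 1)) / 2 := by
    rw [div_div, mul_comm]
  rw [e]; constructor <;> linarith

theorem mu_three_bd (t j : ℕ) (h : j % 4 = 3) : 1 < mu t j ∧ mu t j ≤ 3 / 2 := by
  rw [mu_three t j h]
  have := inv_bd j
  have e : 1 / (2 * ((j : ℚ) + 1)) = (1 / ((j : ℚ) + 1)) / 2 := by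
    rw [div_div, mul_comm]
  rw [e]; constructor <;> linarith

theorem mu_even_bd (t j : ℕ) (h : j % 2 = 0) (h0 : j ≠ 0) (h1 : j ≠ 8 * t + 8) :
    -3 / 4 ≤ mu t j ∧ mu t j < 3 / 4 := by
  rw [mu_even t j h h0 h1]; exact f_bd _

theorem mu_bd (t j : ℕ) : -3 ≤ mu t j ∧ mu t j ≤ 3 := by
  by_cases h0 : j = 0
  · subst h0; rw [mu_zero]; norm_num
  by_cases h1 : j = 8 * t + 8
  · subst h1; rw [mu_last]; norm_num
  rcases (by omega : j % 2 = 0 ∨ j % 4 = 1 ∨ j % 4 = 3) with h | h | h
  · have := mu_even_bd t j h h0 h1; constructor <;> linarith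
  · have := mu_one_bd t j h; constructor <;> linarith
  · have := mu_three_bd t j h; constructor <;> linarith

theorem mu_shape (t k : ℕ) (hk : k + 1 < 8 * t + 9) :
    mu t k < mu t (k + 1) ↔ (k + 3) % 4 = 0 ∨ (k + 3) % 4 = 1 := by
  rcases (by omega : k % 4 = 0 ∨ k % 4 = 1 ∨ k % 4 = 2 ∨ k % 4 = 3) with h | h | h | h
  · have h2 := mu_one_bd t (k + 1) (by omega)
    refine iff_of_false ?_ (by omega)
    by_cases h0 : k = 0
    · subst h0; rw [mu_zero]; linarith
    · have := mu_even_bd t k (by omega) h0 (by omega); linarith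
  · have h1 := mu_one_bd t k h
    have h2 := mu_even_bd t (k + 1) (by omega) (by omega) (by omega)
    exact iff_of_true (by linarith) (by omega)
  · have h1 := mu_even_bd t k (by omega) (by omega) (by omega)
    have h2 := mu_three_bd t (k + 1) (by omega)
    exact iff_of_true (by linarith) (by omega)
  · have h1 := mu_three_bd t k h
    refine iff_of_false ?_ (by omega)
    by_cases h0 : k + 1 = 8 * t + 8
    · rw [h0, mu_last]; linarith
    · have := mu_even_bd t (k + 1) (by omega) (by omega) h0; linarith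

theorem mu_sqfree (t i l : ℕ) (hl : 2 ≤ l) (hil : i + 2 * l ≤ 8 * t + 9) :
    ¬ Sq (mu t) i l := by
  intro hsq
  have h4 := shape_four 3 hl (fun k _ hk => mu_shape t k (by omega)) hsq
  by_cases hi0 : i = 0
  · -- the block contains the first entry
    subst hi0
    have key := hsq 0 (by omega) 3 (by omega)
    have h1 := mu_three_bd t 3 (by norm_num)
    have h2 := mu_even_bd t (0 + l + 0) (by omega) (by omega) (by omega)
    have h3 := mu_three_bd t (0 + l + 3) (by omega)
    have e0 : mu t (0 + 0) = 3 := mu_zero t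
    have e3 : mu t (0 + 3) = mu t 3 := by norm_num
    rw [e0, e3] at key
    have := key.2 (by linarith)
    linarith
  by_cases hi1 : i + 2 * l = 8 * t + 9
  · -- the block contains the last entry
    have key := hsq (l - 1) (by omega) (l - 4) (by omega)
    have e1 : i + l + (l - 1) = 8 * t + 8 := by omega
    have e2 : i + l + (l - 4) = 8 * t + 5 := by omega
    rw [e1, e2, mu_last] at key
    have h1 := mu_one_bd t (8 * t + 5) (by omega)
    have h2 := mu_even_bd t (i + (l - 1)) (by omega) (by omega) (by omega)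
    have h3 := mu_one_bd t (i + (l - 4)) (by omega)
    have := key.2 (by linarith)
    linarith
  obtain ⟨m, hm⟩ : ∃ m, l = 2 * m := ⟨l / 2, by omega⟩
  subst hm
  have hsub : Sq (fun j => f (j + 2)) ((i - 1) / 2) m := by
    refine sub_sq 2 ((i - 1) / 2) (by omega) ?_ hsq
    intro j j' hj1 hj2 hj3 hj4
    rw [mu_even t (2 * j + 2) (by omega) (by omega) (by omega),
      mu_even t (2 * j' + 2) (by omega) (by omega) (by omega)]
    have e1 : (2 * j + 2) / 2 + 1 = j + 2 := by omega
    have e2 : (2 * j' + 2) / 2 + 1 = j' + 2 := by omega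
    rw [e1, e2]
  refine f_sqfree m (by omega) ((i - 1) / 2 + 2) ?_
  intro a ha b hb
  have := hsub a ha b hb
  simp only at this
  have e1 : (i - 1) / 2 + 2 + a = (i - 1) / 2 + a + 2 := by omega
  have e2 : (i - 1) / 2 + 2 + b = (i - 1) / 2 + b + 2 := by omega
  have e3 : (i - 1) / 2 + 2 + m + a = (i - 1) / 2 + m + a + 2 := by omega
  have e4 : (i - 1) / 2 + 2 + m + b = (i - 1) / 2 + m + b + 2 := by omega
  rw [e1, e2, e3, e4]
  exact this

theorem mu_inj (t i j : ℕ) (hi : i < 8 * t + 9) (hj : j < 8 * t + 9) (h : mu t i = mu t j) :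
    i = j := by
  have key : ∀ i j : ℕ, i % 4 = j % 4 → i % 2 = 1 →
      1 / (2 * ((i : ℚ) + 1)) = 1 / (2 * ((j : ℚ) + 1)) → i = j := by
    intro i j _ _ h1
    have hi0 : (0 : ℚ) ≤ i := Nat.cast_nonneg i
    have hj0 : (0 : ℚ) ≤ j := Nat.cast_nonneg j
    rw [div_eq_div_iff (by positivity) (by positivity)] at h1
    have : (i : ℚ) = j := by linarith
    exact_mod_cast this
  rcases (by omega : i = 0 ∨ i = 8 * t + 8 ∨ i % 4 = 1 ∨ i % 4 = 3 ∨
      (i % 2 = 0 ∧ i ≠ 0 ∧ i ≠ 8 * t + 8)) with hi | hi | hi | hi | hi <;>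
  rcases (by omega : j = 0 ∨ j = 8 * t + 8 ∨ j % 4 = 1 ∨ j % 4 = 3 ∨
      (j % 2 = 0 ∧ j ≠ 0 ∧ j ≠ 8 * t + 8)) with hj | hj | hj | hj | hj
  · omega
  · exfalso; rw [hi, hj, mu_zero, mu_last] at h; norm_num at h
  · exfalso; rw [hi, mu_zero] at h; have := mu_one_bd t j hj; linarith
  · exfalso; rw [hi, mu_zero] at h; have := mu_three_bd t j hj; linarith
  · exfalso; rw [hi, mu_zero] at h; have := mu_even_bd t j hj.1 hj.2.1 hj.2.2; linarith
  · exfalso; rw [hi, hj, mu_zero, mu_last] at h; norm_num at h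
  · omega
  · exfalso; rw [hi, mu_last] at h; have := mu_one_bd t j hj; linarith
  · exfalso; rw [hi, mu_last] at h; have := mu_three_bd t j hj; linarith
  · exfalso; rw [hi, mu_last] at h; have := mu_even_bd t j hj.1 hj.2.1 hj.2.2; linarith
  · exfalso; rw [hj, mu_zero] at h; have := mu_one_bd t i hi; linarith
  · exfalso; rw [hj, mu_last] at h; have := mu_one_bd t i hi; linarith
  · rw [mu_one t i hi, mu_one t j hj] at h
    exact key i j (by omega) (by omega) (by linarith)
  · exfalso; have := mu_one_bd t i hi; have := mu_three_bd t j hj; linarith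
  · exfalso; have := mu_one_bd t i hi; have := mu_even_bd t j hj.1 hj.2.1 hj.2.2; linarith
  · exfalso; rw [hj, mu_zero] at h; have := mu_three_bd t i hi; linarith
  · exfalso; rw [hj, mu_last] at h; have := mu_three_bd t i hi; linarith
  · exfalso; have := mu_three_bd t i hi; have := mu_one_bd t j hj; linarith
  · rw [mu_three t i hi, mu_three t j hj] at h
    exact key i j (by omega) (by omega) (by linarith)
  · exfalso; have := mu_three_bd t i hi; have := mu_even_bd t j hj.1 hj.2.1 hj.2.2; linarith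
  · exfalso; rw [hj, mu_zero] at h; have := mu_even_bd t i hi.1 hi.2.1 hi.2.2; linarith
  · exfalso; rw [hj, mu_last] at h; have := mu_even_bd t i hi.1 hi.2.1 hi.2.2; linarith
  · exfalso; have := mu_one_bd t j hj; have := mu_even_bd t i hi.1 hi.2.1 hi.2.2; linarith
  · exfalso; have := mu_three_bd t j hj; have := mu_even_bd t i hi.1 hi.2.1 hi.2.2; linarith
  · rw [mu_even t i hi.1 hi.2.1 hi.2.2, mu_even t j hj.1 hj.2.1 hj.2.2] at h
    have := f_inj _ _ h
    omega

end Pool.Agent.W244.SqFree
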