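import Pool.Agent.W244.SqFree

set_option autoImplicit false

namespace Pool.Agent.W244.SqFree

/-! ### the top level, indices `0, …, 16 t + 20` -/

/-- the entries of the extremal permutation of length `16 t + 21` -/
def g (t k : ℕ) : ℚ :=
  if k = 0 then -(16 * (t : ℚ) + 200)
  else if k = 16 * t + 20 then 16 * (t : ℚ) + 200
  else if k % 4 = 1 then (if k = 5 then 5 / 2 else if k = 13 then -1 / 2 else 50 + (k : ℚ))
  else if k % 4 = 3 then
    (if k = 16 * t + 15 then -5 / 2 else if k = 16 * t + 7 then 1 / 2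
      else (k : ℚ) - (16 * (t : ℚ) + 100))
  else mu t (k / 2 - 1)

theorem g_zero (t : ℕ) : g t 0 = -(16 * (t : ℚ) + 200) := by rw [g, if_pos rfl]

theorem g_last (t : ℕ) : g t (16 * t + 20) = 16 * (t : ℚ) + 200 := by
  rw [g, if_neg (by omega), if_pos rfl]

theorem g_one (t k : ℕ) (h : k % 4 = 1) (h5 : k ≠ 5) (h13 : k ≠ 13) : g t k = 50 + (k : ℚ) := by
  rw [g, if_neg (by omega), if_neg (by omega), if_pos h, if_neg h5, if_neg h13]

theorem g_5 (t : ℕ) : g t 5 = 5 / 2 := by
  rw [g, if_neg (by omega), if_neg (by omega), if_pos (by norm_num), if_pos rfl]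

theorem g_13 (t : ℕ) : g t 13 = -1 / 2 := by
  rw [g, if_neg (by omega), if_neg (by omega), if_pos (by norm_num), if_neg (by norm_num),
    if_pos rfl]

theorem g_three (t k : ℕ) (h : k % 4 = 3) (h5 : k ≠ 16 * t + 15) (h13 : k ≠ 16 * t + 7) :
    g t k = (k : ℚ) - (16 * (t : ℚ) + 100) := by
  rw [g, if_neg (by omega), if_neg (by omega), if_neg (by omega), if_pos h, if_neg h5, if_neg h13]

theorem g_15 (t : ℕ) : g t (16 * t + 15) = -5 / 2 := by
  rw [g, if_neg (by omega), if_neg (by omega), if_neg (by omega), if_pos (by omega), if_pos rfl]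

theorem g_7 (t : ℕ) : g t (16 * t + 7) = 1 / 2 := by
  rw [g, if_neg (by omega), if_neg (by omega), if_neg (by omega), if_pos (by omega),
    if_neg (by omega), if_pos rfl]

theorem g_even (t k : ℕ) (h : k % 2 = 0) (h0 : k ≠ 0) (h1 : k ≠ 16 * t + 20) :
    g t k = mu t (k / 2 - 1) := by
  rw [g, if_neg h0, if_neg h1, if_neg (by omega), if_neg (by omega)]

theorem g_even_bd (t k : ℕ) (h : k % 2 = 0) (h0 : k ≠ 0) (h1 : k ≠ 16 * t + 20) :
    -3 ≤ g t k ∧ g t k ≤ 3 := by
  rw [g_even t k h h0 h1]; exact mu_bd _ _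

theorem g_one_bd (t k : ℕ) (h : k % 4 = 1) (h5 : k ≠ 5) (h13 : k ≠ 13) : 50 ≤ g t k := by
  rw [g_one t k h h5 h13]
  have : (0 : ℚ) ≤ k := Nat.cast_nonneg k
  linarith

theorem g_three_bd (t k : ℕ) (h : k % 4 = 3) (h5 : k ≠ 16 * t + 15) (h13 : k ≠ 16 * t + 7)
    (hk : k < 16 * t + 21) : g t k ≤ -79 := by
  rw [g_three t k h h5 h13]
  have : (k : ℚ) ≤ 16 * t + 20 := by exact_mod_cast (by omega : k ≤ 16 * t + 20)
  linarith

/-- value of `g` at an even index through the base sequence -/
theorem g_f (t k j : ℕ) (hk : k = 4 * j + 2) (hj : 1 ≤ j) (hj2 : j ≤ 4 * t + 3) :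
    g t (k + 0) = f (j + 1) := by
  rw [Nat.add_zero, g_even t k (by omega) (by omega) (by omega),
    mu_even t (k / 2 - 1) (by omega) (by omega) (by omega)]
  congr 1
  omega

theorem g_shape (t k : ℕ) (ht : 1 ≤ t) (hk : k + 1 < 16 * t + 21) :
    g t k < g t (k + 1) ↔ (k + 1) % 4 = 0 ∨ (k + 1) % 4 = 1 := by
  have t0 : (1 : ℚ) ≤ t := by exact_mod_cast ht
  rcases (by omega : k % 4 = 0 ∨ k % 4 = 1 ∨ k % 4 = 2 ∨ k % 4 = 3) with h | h | h | h
  · -- up to a peak
    refine iff_of_true ?_ (by omega)
    by_cases h0 : k = 0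
    · subst h0
      rw [g_zero, g_one t (0 + 1) (by norm_num) (by norm_num) (by norm_num)]
      push_cast; linarith
    by_cases h5 : k = 4
    · subst h5
      rw [show 4 + 1 = 5 from rfl, g_5, g_even t 4 (by norm_num) (by norm_num) (by omega)]
      have := mu_one_bd t (4 / 2 - 1) (by norm_num)
      linarith
    by_cases h13 : k = 12
    · subst h13
      rw [show 12 + 1 = 13 from rfl, g_13, g_even t 12 (by norm_num) (by norm_num) (by omega)]
      have := mu_one_bd t (12 / 2 - 1) (by norm_num)
      linarith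
    have h1 := g_even_bd t k (by omega) h0 (by omega)
    have h2 := g_one_bd t (k + 1) (by omega) (by omega) (by omega)
    linarith
  · refine iff_of_false ?_ (by omega)
    by_cases h5 : k = 5
    · subst h5
      rw [show 5 + 1 = 6 from rfl, g_5, g_even t 6 (by norm_num) (by norm_num) (by omega)]
      have := mu_even_bd t (6 / 2 - 1) (by norm_num) (by norm_num) (by omega)
      linarith
    by_cases h13 : k = 13
    · subst h13
      rw [show 13 + 1 = 14 from rfl, g_13, g_even t 14 (by norm_num) (by norm_num) (by omega),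
        mu_even t (14 / 2 - 1) (by norm_num) (by norm_num) (by omega)]
      have := f_val_bd ((14 / 2 - 1) / 2 + 1) (by norm_num)
      linarith
    have h1 := g_even_bd t (k + 1) (by omega) (by omega) (by omega)
    have h2 := g_one_bd t k (by omega) (by omega) (by omega)
    linarith
  · refine iff_of_false ?_ (by omega)
    by_cases h5 : k + 1 = 16 * t + 15
    · rw [h5, g_15, g_even t k (by omega) (by omega) (by omega)]
      have := mu_even_bd t (k / 2 - 1) (by omega) (by omega) (by omega)
      linarith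
    by_cases h13 : k + 1 = 16 * t + 7
    · rw [h13, g_7, g_even t k (by omega) (by omega) (by omega),
        mu_even t (k / 2 - 1) (by omega) (by omega) (by omega)]
      have := f_peak_bd ((k / 2 - 1) / 2 + 1) (by omega)
      linarith
    have h1 := g_even_bd t k (by omega) (by omega) (by omega)
    have h2 := g_three_bd t (k + 1) (by omega) h5 h13 (by omega)
    linarith
  · refine iff_of_true ?_ (by omega)
    by_cases h0 : k + 1 = 16 * t + 20
    · rw [h0, g_last]
      have h2 := g_three_bd t k (by omega) (by omega) (by omega) (by omega)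
      linarith
    by_cases h5 : k = 16 * t + 15
    · rw [h5, g_15, g_even t (16 * t + 15 + 1) (by omega) (by omega) (by omega)]
      have := mu_three_bd t ((16 * t + 15 + 1) / 2 - 1) (by omega)
      linarith
    by_cases h13 : k = 16 * t + 7
    · rw [h13, g_7, g_even t (16 * t + 7 + 1) (by omega) (by omega) (by omega)]
      have := mu_three_bd t ((16 * t + 7 + 1) / 2 - 1) (by omega)
      linarith
    have h1 := g_even_bd t (k + 1) (by omega) (by omega) (by omega)
    have h2 := g_three_bd t k (by omega) h5 h13 (by omega)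
    linarith

theorem g_sqfree (t i l : ℕ) (ht : 1 ≤ t) (hl : 2 ≤ l) (hil : i + 2 * l ≤ 16 * t + 21) :
    ¬ Sq (g t) i l := by
  intro hsq
  have t0 : (1 : ℚ) ≤ t := by exact_mod_cast ht
  have h4 := shape_four 1 hl (fun k _ hk => g_shape t k ht (by omega)) hsq
  by_cases hi0 : i = 0
  · subst hi0
    have key := hsq 0 (by omega) 3 (by omega)
    have h2 := g_even_bd t (0 + l + 0) (by omega) (by omega) (by omega)
    have h3 := g_three_bd t (0 + l + 3) (by omega) (by omega) (by omega) (by omega)
    have e0 : g t (0 + 0) = _ := g_zero t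
    have e3 : g t (0 + 3) = _ := g_three t 3 (by norm_num) (by omega) (by omega)
    rw [e0, e3] at key
    have := key.1 (by push_cast; linarith)
    linarith
  by_cases hi1 : i + 2 * l = 16 * t + 21
  · have key := hsq (l - 4) (by omega) (l - 1) (by omega)
    have e1 : i + l + (l - 1) = 16 * t + 20 := by omega
    have e2 : i + l + (l - 4) = 16 * t + 17 := by omega
    rw [e1, e2, g_last, g_one t (16 * t + 17) (by omega) (by omega) (by omega)] at key
    have h2 := g_even_bd t (i + (l - 1)) (by omega) (by omega) (by omega)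
    have h3 := g_one_bd t (i + (l - 4)) (by omega) (by omega) (by omega)
    have := key.2 (by push_cast; linarith)
    linarith
  obtain ⟨m, hm⟩ : ∃ m, l = 2 * m := ⟨l / 2, by omega⟩
  subst hm
  refine mu_sqfree t ((i - 1) / 2) m (by omega) (by omega) ?_
  refine sub_sq 2 ((i - 1) / 2) (by omega) ?_ hsq
  intro j j' hj1 hj2 hj3 hj4
  rw [g_even t (2 * j + 2) (by omega) (by omega) (by omega),
    g_even t (2 * j' + 2) (by omega) (by omega) (by omega)]
  have e1 : (2 * j + 2) / 2 - 1 = j := by omega
  have e2 : (2 * j' + 2) / 2 - 1 = j' := by omega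
  rw [e1, e2]

/-- classification of the indices -/
theorem g_cases (t k : ℕ) (hk : k < 16 * t + 21) :
    k = 0 ∨ k = 16 * t + 20 ∨ k = 5 ∨ k = 13 ∨ k = 16 * t + 15 ∨ k = 16 * t + 7 ∨
    (k % 4 = 1 ∧ k ≠ 5 ∧ k ≠ 13) ∨ (k % 4 = 3 ∧ k ≠ 16 * t + 15 ∧ k ≠ 16 * t + 7) ∨
    (k % 2 = 0 ∧ k ≠ 0 ∧ k ≠ 16 * t + 20) := by omega

theorem mu_ne_special (t j : ℕ) : mu t j ≠ 5 / 2 ∧ mu t j ≠ -5 / 2 ∧ mu t j ≠ 1 / 2 ∧
    mu t j ≠ -1 / 2 := by
  by_cases h0 : j = 0
  · subst h0; rw [mu_zero]; norm_num
  by_cases h1 : j = 8 * t + 8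
  · subst h1; rw [mu_last]; norm_num
  rcases (by omega : j % 4 = 1 ∨ j % 4 = 3 ∨ j % 2 = 0) with h | h | h
  · have := mu_one_bd t j h
    refine ⟨?_, ?_, ?_, ?_⟩ <;> intro h' <;> linarith
  · have := mu_three_bd t j h
    refine ⟨?_, ?_, ?_, ?_⟩ <;> intro h' <;> linarith
  · have := mu_even_bd t j h h0 h1
    have h5 : mu t j ≠ 1 / 2 ∧ mu t j ≠ -1 / 2 := by
      rw [mu_even t j h h0 h1]
      rcases (by omega : (j / 2 + 1) % 2 = 1 ∨ (j / 2 + 1) % 4 = 0 ∨ (j / 2 + 1) % 4 = 2) with
        h | h | h
      · have := f_odd_bd _ h; constructor <;> intro h' <;> linarith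
      · have := f_val_bd _ h; constructor <;> intro h' <;> linarith
      · have := f_peak_bd _ h; constructor <;> intro h' <;> linarith
    refine ⟨?_, ?_, h5.1, h5.2⟩ <;> intro h' <;> linarith

/-- a coarse injectivity statement for `i < j` -/
theorem g_inj (t i j : ℕ) (ht : 1 ≤ t) (hi : i < 16 * t + 21) (hj : j < 16 * t + 21)
    (h : g t i = g t j) : i = j := by
  have t0 : (1 : ℚ) ≤ t := by exact_mod_cast ht
  have hI : ∀ k, k < 16 * t + 21 → (k : ℚ) ≤ 16 * t + 20 := by
    intro k hk; exact_mod_cast (by omega : k ≤ 16 * t + 20)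
  have hp : ∀ k : ℕ, (0 : ℚ) ≤ k := fun k => Nat.cast_nonneg k
  have key : ∀ i j : ℕ, i < 16 * t + 21 → j < 16 * t + 21 → i < j → g t i = g t j → False := by
    intro i j hi hj hij h
    have hIi := hI i hi
    have hIj := hI j hj
    have hpi := hp i
    have hpj := hp j
    rcases g_cases t i hi with hc | hc | hc | hc | hc | hc | ⟨hc, hc1, hc2⟩ | ⟨hc, hc1, hc2⟩ |
      ⟨hc, hc1, hc2⟩ <;>
    rcases g_cases t j hj with hd | hd | hd | hd | hd | hd | ⟨hd, hd1, hd2⟩ | ⟨hd, hd1, hd2⟩ |
      ⟨hd, hd1, hd2⟩ <;>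
    first
      | omega
      | (first
          | rw [hc, g_zero] at h
          | rw [hc, g_last] at h
          | rw [hc, g_5] at h
          | rw [hc, g_13] at h
          | rw [hc, g_15] at h
          | rw [hc, g_7] at h
          | rw [g_one t i hc hc1 hc2] at h
          | rw [g_three t i hc hc1 hc2] at h
          | rw [g_even t i hc hc1 hc2] at h
         first
          | rw [hd, g_zero] at h
          | rw [hd, g_last] at h
          | rw [hd, g_5] at h
          | rw [hd, g_13] at h
          | rw [hd, g_15] at h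
          | rw [hd, g_7] at h
          | rw [g_one t j hd hd1 hd2] at h
          | rw [g_three t j hd hd1 hd2] at h
          | rw [g_even t j hd hd1 hd2] at h
         have m1 := mu_bd t (i / 2 - 1)
         have m2 := mu_bd t (j / 2 - 1)
         have s1 := mu_ne_special t (i / 2 - 1)
         have s2 := mu_ne_special t (j / 2 - 1)
         first
          | linarith
          | exact s1.1 h
          | exact s1.2.1 h
          | exact s1.2.2.1 h
          | exact s1.2.2.2 h
          | exact s2.1 h.symm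
          | exact s2.2.1 h.symm
          | exact s2.2.2.1 h.symm
          | exact s2.2.2.2 h.symm
          | (have h' : (i : ℚ) = j := by linarith
             have h'' : i = j := by exact_mod_cast h'
             omega)
          | (have := mu_inj t _ _ (by omega) (by omega) h
             omega))
  rcases lt_trichotomy i j with hlt | heq | hgt
  · exact (key i j hi hj hlt h).elim
  · exact heq
  · exact (key j i hj hi hgt h.symm).elim

end Pool.Agent.W244.SqFree
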